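import Pool.Agent.Y770.EP.Final

/-!
# Elliptic curves over `ℚ` over a fixed number field: almost all members of every pencil

Let `K` be a fixed number field, for example not Galois and of large degree, so that no continuation of
`L(E/K, s)` to a point with `Re s < 3/2` is known for a general elliptic curve `E` over `ℚ`.  For
integers `a, b` (more generally for `a, b ∈ 𝓞_K`) and all integers `|n| ≤ X` consider the curves

`E_n : y² = x³ + a x + b + n`.

The question is whether `L(E_n/K, s)` is entire.  Together with the Riemann hypothesis it says that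
`L(E_n/K, s)` has no poles and no zeros for `Re s > 1`, and (up to powers of `log` of the
conductor) this means that the product of the Euler factors over the primes with `y < q_v ≤ x` tends to
`1` for `y → ∞`, `x ≥ y`, like a negative power of `y`, for `Re s > 1`, as soon as `y` exceeds a power of
`log` of the conductor.  The theorem says that this is true, with a power saving, for `x` up to a
power of `X` and for `Re s ≥ 1 + δ`, `|Im s| ≤ X^c`, for all but at most `X^{1-c}` of the integers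
`|n| ≤ X`; and the same for the twists `L(E_n/K ⊗ γ, s)` by any `X^c` systems `γ` of `N` numbers of
absolute value at most `1` for the primes of `K` (Artin representations of `K`) at the same time.  The
bound is uniform in `a` and `b`, which may be arbitrarily large.  Near the edge, for
`Re s ≥ 3/2 + A / log X`, the function `L(E_n/K ⊗ γ, s)` itself is given by the Euler factors of the
primes `q_v ≤ (log X)^{1/c}`, up to a factor arbitrarily close to `1`.

The proof is from the starting modules `Pool.Agent.Y770.EP`; this theorem had not been handed in.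
-/

set_option autoImplicit false

namespace Pool.Agent.Results.MP_bf9450_nt.AlmostAllCurves

open NumberField IsDedekindDomain

/-- `a_v(E) = q_v - #{(x, y) : y² = x³ + a x + b}`, where `x`, `y` are in the residue field of `v`.  It
is the trace of the Frobenius at `v` on `H¹` of `E : y² = x³ + a x + b`, if the reduction is good. -/
noncomputable def trace {K : Type} [Field K] [NumberField K] (a b : 𝓞 K)
    (v : HeightOneSpectrum (𝓞 K)) : ℂ :=
  (Ideal.absNorm v.asIdeal : ℂ) - Nat.card {P : (𝓞 K ⧸ v.asIdeal) × (𝓞 K ⧸ v.asIdeal) //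
    P.2 ^ 2 = P.1 ^ 3 + Ideal.Quotient.mk v.asIdeal a * P.1 + Ideal.Quotient.mk v.asIdeal b}

/-- The prime `v` does not divide `6 (4 a³ + 27 b²)`; then the curve `y² = x³ + a x + b` has good
reduction at `v`. -/
def IsGood {K : Type} [Field K] [NumberField K] (a b : 𝓞 K) (v : HeightOneSpectrum (𝓞 K)) : Prop :=
  6 * (4 * a ^ 3 + 27 * b ^ 2) ∉ v.asIdeal

/-- The Euler factor of `L(E ⊗ γ, s)` at `v`, for `E : y² = x³ + a x + b` and a system `γ` of `N` numbers
`γ_{v,1}, …, γ_{v,N}` for all primes `v`: the product over `j` of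
`(1 - a_v γ_{v,j} q_v^{-s} + γ_{v,j}² q_v^{1-2s})⁻¹`.  For `N = 1` and `γ = 1` it is the Euler factor
`(1 - a_v q_v^{-s} + q_v^{1-2s})⁻¹` of `L(E, s)`. -/
noncomputable def eulerFactor {K : Type} [Field K] [NumberField K] {N : ℕ} (a b : 𝓞 K)
    (γ : HeightOneSpectrum (𝓞 K) → Fin N → ℂ) (s : ℂ) (v : HeightOneSpectrum (𝓞 K)) : ℂ :=
  ∏ j, (1 - trace a b v * γ v j * (Ideal.absNorm v.asIdeal : ℂ) ^ (-s) +
    γ v j ^ 2 * (Ideal.absNorm v.asIdeal : ℂ) ^ (1 - 2 * s))⁻¹

/-- The product of the Euler factors of the good primes `v` with `q_v ≤ x`. -/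
noncomputable def partialProduct {K : Type} [Field K] [NumberField K] {N : ℕ} (a b : 𝓞 K)
    (γ : HeightOneSpectrum (𝓞 K) → Fin N → ℂ) (s : ℂ) (x : ℕ) : ℂ :=
  ∏ᶠ v ∈ {v : HeightOneSpectrum (𝓞 K) | IsGood a b v ∧ Ideal.absNorm v.asIdeal ≤ x},
    eulerFactor a b γ s v

/-- `L(E ⊗ γ, s)`: the product of the Euler factors of all good primes, convergent for
`Re s > 3/2`. -/
noncomputable def LFunction {K : Type} [Field K] [NumberField K] {N : ℕ} (a b : 𝓞 K)
    (γ : HeightOneSpectrum (𝓞 K) → Fin N → ℂ) (s : ℂ) : ℂ :=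
  ∏' v : {v : HeightOneSpectrum (𝓞 K) // IsGood a b v}, eulerFactor a b γ s v

/-- The Euler products of `L(E/K ⊗ γ, s)`, `E : y² = x³ + a x + b`, are stable in the half-plane
`Re s ≥ 1 + δ`: for `(log X)^{1/c} ≤ y ≤ x ≤ X^c` and `|Im s| ≤ X^c` the product over the good primes
with `y < q_v ≤ x` differs from `1` by at most `y^{-c}`. -/
def Stable {K : Type} [Field K] [NumberField K] {N : ℕ} (δ c : ℝ) (X : ℕ) (a b : 𝓞 K)
    (γ : HeightOneSpectrum (𝓞 K) → Fin N → ℂ) : Prop :=
  ∀ s : ℂ, 1 + δ ≤ s.re → |s.im| ≤ (X : ℝ) ^ c → ∀ y x : ℕ, (Real.log X) ^ (1 / c) ≤ y → y ≤ x →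
    (x : ℝ) ≤ (X : ℝ) ^ c →
      ‖partialProduct a b γ s x / partialProduct a b γ s y - 1‖ ≤ (y : ℝ) ^ (-c)

/-- Near the edge, for `Re s ≥ 3/2 + A / log X` and `|Im s| ≤ X^c`, the quotient of `L(E/K ⊗ γ, s)` and
of the product over the good primes with `q_v ≤ y` differs from `1` by at most `η`, for all
`y ≥ (log X)^{1/c}`. -/
def Approximated {K : Type} [Field K] [NumberField K] {N : ℕ} (η A c : ℝ) (X : ℕ) (a b : 𝓞 K)
    (γ : HeightOneSpectrum (𝓞 K) → Fin N → ℂ) : Prop :=
  ∀ s : ℂ, 3 / 2 + A / Real.log X ≤ s.re → |s.im| ≤ (X : ℝ) ^ c → ∀ y : ℕ,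
    (Real.log X) ^ (1 / c) ≤ y → ‖LFunction a b γ s / partialProduct a b γ s y - 1‖ ≤ η

/-- **Almost all members of every pencil `y² = x³ + a x + b + n`.**  Let `K` be a number field, `N` an
integer and `δ > 0`.  There is `c > 0` and for every `η > 0` there are `A` and `X₀`, such that for all
`X ≥ X₀`, all `a, b ∈ 𝓞_K` (for example all integers) and any `m ≤ X^c` systems `γ_k` of `N` numbers of
absolute value at most `1` for all primes of `K`, the following holds for all integers `n` with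
`|n| ≤ X`, with at most `X^{1-c}` exceptions: for all `k` the Euler products of `L(E_n/K ⊗ γ_k, s)`,
`E_n : y² = x³ + a x + b + n`, are stable in the half-plane `Re s ≥ 1 + δ` (`Stable`), and they are close
to `L(E_n/K ⊗ γ_k, s)` for `Re s ≥ 3/2 + A / log X` (`Approximated`). -/
theorem result (K : Type) [Field K] [NumberField K] (N : ℕ) (δ : ℝ) (_ : 0 < δ) :
    ∃ c : ℝ, 0 < c ∧ ∀ η : ℝ, 0 < η → ∃ A : ℝ, ∃ X₀ : ℕ, ∀ X : ℕ, X₀ ≤ X → ∀ a b : 𝓞 K, ∀ m : ℕ,
      (m : ℝ) ≤ (X : ℝ) ^ c → ∀ γ : Fin m → HeightOneSpectrum (𝓞 K) → Fin N → ℂ,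
        (∀ k v j, ‖γ k v j‖ ≤ 1) →
        ({n : ℤ | |n| ≤ X ∧ ¬ ∀ k, Stable δ c X a (b + (n : 𝓞 K)) (γ k) ∧
          Approximated η A c X a (b + (n : 𝓞 K)) (γ k)}.ncard : ℝ) ≤ (X : ℝ) ^ (1 - c) :=
  Pool.Agent.Y770.EP.final K N δ ‹_›

end Pool.Agent.Results.MP_bf9450_nt.AlmostAllCurves
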