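import Pool.Agent.Q235.FD.NF

/-!
# `L(E/K, s)` in the half plane `Re s > 1`, for almost all elliptic curves `E` whose coefficients arise from arbitrary integers by
changing a few digits and for all number fields `K` of a large family at once

Let `E_i : Y ^ 2 = X ^ 3 + m (i, 2) X ^ 2 + m (i, 1) X + m (i, 0)`, `i ≤ N`, be elliptic curves whose coefficients arise from arbitrary
integers by changing a few digits at random positions, and let `K` be a number field. If `L(E_i/K, s)` is entire and the Riemann
hypothesis holds for it, then `L'/L(E_i/K, s)` is holomorphic for `Re s > 1`. Up to a Dirichlet series which converges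
absolutely for `Re s > 1` (the places of degree at least two, the higher powers) `- L'/L(E_i/K, s)` is the sum of
`d_K(p) a_p(E_i) log p p ^ (-s)` over the primes `p`, where `d_K(p)` is the number of the places of `K` of degree one above `p`. We show for
almost all choices of the positions that the part of this sum over the good primes `p` with `y < p ≤ x` is at most
`n (2 + |s|) y ^ (-δ / 4)`, for all complex `s` with `Re s ≥ 1 + δ`, all `i ≤ N`, all number fields `K` in an arbitrary family of
`y ^ B` number fields of degree at most `n`, and all `x` from `y` to `exp (c r)`, where `r` is the number of the digits changed. In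
particular nothing is supposed about `K` (it need not be abelian, solvable or totally real), and for one curve all the fields of the
family are treated at once.

The proof uses the law for functions of the residues of such tuples (library `TH894.NE`), Weil's bound (library `H341R2`), the
averages over the polynomials modulo `p`, and partial summation.
-/

set_option autoImplicit false

namespace Pool.Agent.Results.MP_bf9450_nt.FewDigitCurves

open Finset NumberField Pool.Agent.Q235.FD

/-- For every `y` at most `y ^ B` subfields of `ℂ`, those of them which are number fields being of degree at most `n`. -/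
structure Fields (n B : ℕ) where
  /-- the fields -/
  F : ℕ → Finset (IntermediateField ℚ ℂ)
  card : ∀ y, (F y).card ≤ y ^ B
  degree : ∀ y, ∀ K ∈ F y, Module.finrank ℚ K ≤ n

/-- The trace of Frobenius `a_p = p + 1 - N_p` of the curve `Y ^ 2 = X ^ 3 + m 2 X ^ 2 + m 1 X + m 0`; the number `N_p` of the points modulo
`p` is `affine p m + 1`. -/
noncomputable def a (p : ℕ) (m : Fin 3 → ℕ) : ℝ := (p : ℝ) + 1 - ((affine p m + 1 : ℕ) : ℝ)

open Classical in
/-- The sum over the primes `p` with `y < p ≤ x`, good for all the curves, of `d_K(p) a_p(E_i) log p p ^ (-s)`. -/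
noncomputable def series {N : ℕ} (y x : ℕ) (m : (Σ _ : Fin N, Fin 3) → ℕ) (i : Fin N) (K : Type) [Field K] [NumberField K] (s : ℂ) : ℂ :=
  primeSum y x (fun p => if AllGood p m then
    (degreeOne K p * a p (fun l => m ⟨i, l⟩) * Real.log p : ℝ) * (p : ℂ) ^ (-s) else 0)

open Classical in
/-- the weight function of a field -/
noncomputable def weight (n : ℕ) (K : IntermediateField ℚ ℂ) (p : ℕ) : ℝ :=
  if h : NumberField K ∧ Module.finrank ℚ K ≤ n ∧ p.Prime then (haveI := h.1; (degreeOne K p : ℝ) / n) else 0

/-- For all numbers `N ≥ 1` of curves, degrees `n ≥ 1`, bases `b ≥ 2`, `δ > 0`, `A` and `B`, for almost all systems `m` of coefficients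
obtained by changing a few digits of arbitrary integers (`ForAlmostAllFrom`), uniformly in the family `θ` of at most `y ^ B` fields:
`|series y x m i K s| ≤ n (2 + |s|) y ^ (-δ / 4)` for all number fields `K` in the family, all `i` and all `s` with `Re s ≥ 1 + δ`. -/
theorem result (N : ℕ) (hN : 1 ≤ N) (n : ℕ) (hn : 1 ≤ n) (b : ℕ) (hb : 2 ≤ b) (δ : ℝ) (hδ : 0 < δ) (A B : ℕ) :
    ForAlmostAllFrom (Σ _ : Fin N, Fin 3) b A (fun (θ : Fields n B) y x m => ∀ K ∈ θ.F y, ∀ [NumberField K], ∀ i : Fin N, ∀ s : ℂ,
      1 + δ ≤ s.re → ‖series y x m i K s‖ ≤ n * (2 + ‖s‖) * (y : ℝ) ^ (-(δ / 4))) := by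
  classical
  have hn0 : (0 : ℝ) < n := by exact_mod_cast hn
  obtain ⟨c, hc, y₀, H⟩ := joint_series (D := fun _ : Fin N => 3) hN (fun _ => ⟨1, rfl⟩) hb hδ A B
  refine ⟨c, hc, y₀, fun θ K' r N' f y hset hy => ?_⟩
  obtain ⟨θ', hθ'⟩ : ∃ θ' : Weights B, ∀ y, θ'.W y = (θ.F y).image (weight n) := by
    refine ⟨⟨fun y => (θ.F y).image (weight n), fun y => card_image_le.trans (θ.card y), ?_⟩, fun _ => rfl⟩
    intro y w hw p
    obtain ⟨K, hK, rfl⟩ := mem_image.1 hw
    unfold weight
    split_ifs with h
    · have := h.1
      rw [abs_of_nonneg (by positivity), div_le_one hn0]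
      exact_mod_cast (degreeOne_le K h.2.2).trans h.2.1
    · simp
  refine le_trans (Nat.cast_le.2 (exceptions_mono ?_)) (H θ' K' r N' f y hset hy)
  intro m hm x hx hr K hK _ i s hs
  have h1 := (hm x hx hr (weight n K) (by rw [hθ']; exact mem_image_of_mem _ hK) (s - 1 / 2) (by
    rw [Complex.sub_re]
    norm_num
    linarith)).2 (Pi.single i 1) (fun l => by
      by_cases h : l = i
      · rw [h, Pi.single_eq_same]; omega
      · rw [Pi.single_eq_of_ne h]; omega)
  have e : series y x m i K s = n * primeSum y x (fun p => ((weight n K p * Real.log p * jpow (Pi.single i 1) p m : ℝ) : ℂ) *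
      (p : ℂ) ^ (-(s - 1 / 2))) := by
    unfold series primeSum
    rw [mul_sum]
    refine sum_congr rfl fun p hp => ?_
    beta_reduce
    have hpp := (mem_filter.1 hp).2
    have hp0 : (0 : ℝ) < p := by exact_mod_cast hpp.pos
    by_cases hgood : AllGood p m
    · rw [if_pos hgood]
      have e1 : jpow (Pi.single i 1) p m = ntrace p (fun l => m ⟨i, l⟩) := by
        unfold jpow
        rw [if_pos hgood, prod_eq_single_of_mem i (mem_univ i), Pi.single_eq_same, pow_one]
        · have e2 : ∏ l, gmom ((Pi.single i 1 : Fin N → ℕ) l) = 0 := by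
            apply prod_eq_zero (mem_univ i)
            rw [Pi.single_eq_same]
            exact gmom_one
          rw [e2, sub_zero]
        · intro l _ hl
          rw [Pi.single_eq_of_ne hl, pow_zero]
      have e2 : weight n K p = (degreeOne K p : ℝ) / n := by
        unfold weight
        rw [dif_pos ⟨inferInstance, θ.degree y K hK, hpp⟩]
      have hs0 : 0 < Real.sqrt p := Real.sqrt_pos.2 hp0
      have e3 : a p (fun l => m ⟨i, l⟩) = ntrace p (fun l => m ⟨i, l⟩) * Real.sqrt p := by
        unfold a ntrace
        push_cast
        field_simp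
        ring
      have hpc : ((p : ℕ) : ℂ) ≠ 0 := by exact_mod_cast hpp.ne_zero
      have e4 : ((p : ℕ) : ℂ) ^ (-(s - 1 / 2)) = (p : ℂ) ^ (-s) * (Real.sqrt p : ℂ) := by
        rw [show -(s - 1 / 2) = -s + (1 / 2 : ℂ) by ring, Complex.cpow_add _ _ hpc]
        congr 1
        rw [Real.sqrt_eq_rpow, Complex.ofReal_cpow hp0.le]
        push_cast
        rfl
      rw [e1, e2, e3, e4]
      have hnC : (n : ℂ) ≠ 0 := by exact_mod_cast (by omega : n ≠ 0)
      push_cast
      field_simp
    · rw [if_neg hgood]
      unfold jpow
      rw [if_neg hgood]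
      simp
  rw [e, norm_mul, Complex.norm_natCast, mul_assoc]
  apply mul_le_mul_of_nonneg_left _ hn0.le
  refine h1.trans (mul_le_mul_of_nonneg_right ?_ (by positivity))
  have h2 := norm_sub_le s (1 / 2)
  have h3 : ‖(1 / 2 : ℂ)‖ ≤ 1 := by norm_num
  linarith

end Pool.Agent.Results.MP_bf9450_nt.FewDigitCurves
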