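import Pool.Agent.Q190.NP.Ser

/-!
# `L(E/K, s)` in the half plane `Re s > 1`, for ALL elliptic curves `E` whose coefficients lie in windows near powers with non-integral
exponents and for all number fields `K` of a large family at once

Let `E_i : Y ^ 2 = X ^ 3 + m (i, 2) X ^ 2 + m (i, 1) X + m (i, 0)`, `i ≤ N`, be elliptic curves whose coefficients are ARBITRARY integers
in the windows of length `y ^ V` around the real numbers `β l + ω l * k (μ l) ^ ex l`, where `k` runs through `{1, ..., x} ^ dm`, the
exponents `ex l > 1` are not integers, and two coordinates which depend on the same index have different exponents (for instance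
`N = dm = 1`: the curves with the coefficients near `(k ^ (7/2), k ^ (5/2), k ^ (3/2))`). Let `K` be a number field. If `L(E_i/K, s)`
is entire and the Riemann hypothesis holds for it, then `L'/L(E_i/K, s)` is holomorphic for `Re s > 1`. Up to a Dirichlet series
which converges absolutely for `Re s > 1` (the places of degree at least two, the higher powers) `- L'/L(E_i/K, s)` is the sum of
`d_K(p) a_p(E_i) log p p ^ (-s)` over the primes `p`, where `d_K(p)` is the number of the places of `K` of degree one above `p`. We show
for almost all index vectors, and ALL the curves with coefficients in the windows, that the part of this sum over the good primes `p`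
with `y < p ≤ z` is at most `n (2 + |s|) y ^ (-δ / 4)`, for all complex `s` with `Re s ≥ 1 + δ`, all `i ≤ N`, all number fields `K` in an
arbitrary family of `y ^ B` number fields of degree at most `n`, and all `z` from `y` to `x ^ c`. Nothing is supposed about `K` (it need
not be abelian, solvable or totally real).

The proof uses the moments of sums of functions of the residues (`Q56.WL`: products of Fejér kernels, van der Corput's method for
the exponential sums over the real points), Weil's bound (library `H341R2`), and partial summation.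
-/

set_option autoImplicit false

namespace Pool.Agent.Results.MP_bf9450_nt.NearPowers

open Finset NumberField Pool.Agent.Q56.WL
open Pool.Agent.Q235.FD (affine AllGood primeSum degreeOne degreeOne_le Weights jpow ntrace gmom gmom_one)

/-- For every `y` at most `y ^ B` subfields of `ℂ`, those of them which are number fields being of degree at most `n`. -/
structure Fields (n B : ℕ) where
  /-- the fields -/
  F : ℕ → Finset (IntermediateField ℚ ℂ)
  card : ∀ y, (F y).card ≤ y ^ B
  degree : ∀ y, ∀ K ∈ F y, Module.finrank ℚ K ≤ n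

/-- The trace of Frobenius `a_p = p + 1 - N_p` of the curve `Y ^ 2 = X ^ 3 + m 2 X ^ 2 + m 1 X + m 0`; the number `N_p` of the points modulo
`p` is `affine p m + 1`. -/
noncomputable def a (p : ℕ) (m : Fin 3 → ℕ) : ℝ := (p : ℝ) + 1 - ((affine p m + 1 : ℕ) : ℝ)

open Classical in
/-- The sum over the primes `p` with `y < p ≤ x`, good for all the curves, of `d_K(p) a_p(E_i) log p p ^ (-s)`. -/
noncomputable def series {N : ℕ} (y x : ℕ) (m : (Σ _ : Fin N, Fin 3) → ℕ) (i : Fin N) (K : Type) [Field K] [NumberField K] (s : ℂ) : ℂ :=
  primeSum y x (fun p => if AllGood p m then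
    (degreeOne K p * a p (fun l => m ⟨i, l⟩) * Real.log p : ℝ) * (p : ℂ) ^ (-s) else 0)

open Classical in
/-- the weight function of a field -/
noncomputable def weight (n : ℕ) (K : IntermediateField ℚ ℂ) (p : ℕ) : ℝ :=
  if h : NumberField K ∧ Module.finrank ℚ K ≤ n ∧ p.Prime then (haveI := h.1; (degreeOne K p : ℝ) / n) else 0

/-- For all numbers `N ≥ 1` of curves, degrees `n ≥ 1`, exponents, coefficients and maps as in `Setting`, `δ > 0`, `A`, `V` and `B`, for
almost all index vectors and ALL systems `m` of coefficients in the windows (`ForAlmostAllFrom`), uniformly in the shifts and in the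
family `θ` of at most `y ^ B` fields: `|series y x m i K s| ≤ n (2 + |s|) y ^ (-δ / 4)` for all number fields `K` in the family, all `i`
and all `s` with `Re s ≥ 1 + δ`. -/
theorem result (N : ℕ) (hN : 1 ≤ N) (n : ℕ) (hn : 1 ≤ n) (dm : ℕ) (ex ω : (Σ _ : Fin N, Fin 3) → ℝ)
    (μ : (Σ _ : Fin N, Fin 3) → Fin dm) (hset : Setting ex ω μ) (δ : ℝ) (hδ : 0 < δ) (A V B : ℕ) :
    ForAlmostAllFrom ex ω μ A V (fun (θ : Fields n B) y x m => ∀ K ∈ θ.F y, ∀ [NumberField K], ∀ i : Fin N, ∀ s : ℂ,
      1 + δ ≤ s.re → ‖series y x m i K s‖ ≤ n * (2 + ‖s‖) * (y : ℝ) ^ (-(δ / 4))) := by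
  classical
  have hn0 : (0 : ℝ) < n := by exact_mod_cast hn
  obtain ⟨c, hc, y₀, H⟩ := Pool.Agent.Q190.NP.joint_series_near (D := fun _ : Fin N => 3) hN (fun _ => ⟨1, rfl⟩) hset hδ A V B
  refine ⟨c, hc, y₀, fun θ β x₀ y hy => ?_⟩
  obtain ⟨θ', hθ'⟩ : ∃ θ' : Weights B, ∀ y, θ'.W y = (θ.F y).image (weight n) := by
    refine ⟨⟨fun y => (θ.F y).image (weight n), fun y => card_image_le.trans (θ.card y), ?_⟩, fun _ => rfl⟩
    intro y w hw p
    obtain ⟨K, hK, rfl⟩ := mem_image.1 hw
    unfold weight
    split_ifs with h
    · have := h.1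
      rw [abs_of_nonneg (by positivity), div_le_one hn0]
      exact_mod_cast (degreeOne_le K h.2.2).trans h.2.1
    · simp
  refine le_trans (Nat.cast_le.2 (exceptions_mono ?_)) (H θ' β x₀ y hy)
  intro m hm x hx hr K hK _ i s hs
  have h1 := (hm x hx hr (weight n K) (by rw [hθ']; exact mem_image_of_mem _ hK) (s - 1 / 2) (by
    rw [Complex.sub_re]
    norm_num
    linarith)).2 (Pi.single i 1) (fun l => by
      by_cases h : l = i
      · rw [h, Pi.single_eq_same]; omega
      · rw [Pi.single_eq_of_ne h]; omega)
  have e : series y x m i K s = n * primeSum y x (fun p => ((weight n K p * Real.log p * jpow (Pi.single i 1) p m : ℝ) : ℂ) *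
      (p : ℂ) ^ (-(s - 1 / 2))) := by
    unfold series primeSum
    rw [mul_sum]
    refine sum_congr rfl fun p hp => ?_
    beta_reduce
    have hpp := (mem_filter.1 hp).2
    have hp0 : (0 : ℝ) < p := by exact_mod_cast hpp.pos
    by_cases hgood : AllGood p m
    · rw [if_pos hgood]
      have e1 : jpow (Pi.single i 1) p m = ntrace p (fun l => m ⟨i, l⟩) := by
        unfold jpow
        rw [if_pos hgood, prod_eq_single_of_mem i (mem_univ i), Pi.single_eq_same, pow_one]
        · have e2 : ∏ l, gmom ((Pi.single i 1 : Fin N → ℕ) l) = 0 := by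
            apply prod_eq_zero (mem_univ i)
            rw [Pi.single_eq_same]
            exact gmom_one
          rw [e2, sub_zero]
        · intro l _ hl
          rw [Pi.single_eq_of_ne hl, pow_zero]
      have e2 : weight n K p = (degreeOne K p : ℝ) / n := by
        unfold weight
        rw [dif_pos ⟨inferInstance, θ.degree y K hK, hpp⟩]
      have hs0 : 0 < Real.sqrt p := Real.sqrt_pos.2 hp0
      have e3 : a p (fun l => m ⟨i, l⟩) = ntrace p (fun l => m ⟨i, l⟩) * Real.sqrt p := by
        unfold a ntrace
        push_cast
        field_simp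
        ring
      have hpc : ((p : ℕ) : ℂ) ≠ 0 := by exact_mod_cast hpp.ne_zero
      have e4 : ((p : ℕ) : ℂ) ^ (-(s - 1 / 2)) = (p : ℂ) ^ (-s) * (Real.sqrt p : ℂ) := by
        rw [show -(s - 1 / 2) = -s + (1 / 2 : ℂ) by ring, Complex.cpow_add _ _ hpc]
        congr 1
        rw [Real.sqrt_eq_rpow, Complex.ofReal_cpow hp0.le]
        push_cast
        rfl
      rw [e1, e2, e3, e4]
      have hnC : (n : ℂ) ≠ 0 := by exact_mod_cast (by omega : n ≠ 0)
      push_cast
      field_simp
    · rw [if_neg hgood]
      unfold jpow
      rw [if_neg hgood]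
      simp
  rw [e, norm_mul, Complex.norm_natCast, mul_assoc]
  apply mul_le_mul_of_nonneg_left _ hn0.le
  refine h1.trans (mul_le_mul_of_nonneg_right ?_ (by positivity))
  have h2 := norm_sub_le s (1 / 2)
  have h3 : ‖(1 / 2 : ℂ)‖ ≤ 1 := by norm_num
  linarith

end Pool.Agent.Results.MP_bf9450_nt.NearPowers
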