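import Pool.Agent.Y693.RF.ThmB

/-!
# Elliptic curves over `ℚ` over random number fields

Let `E : y² = x³ + a x + b` be an elliptic curve over `ℚ`, or over a number field `F` of degree `d`, and
`f` a monic polynomial of degree `n` over `𝓞_F`.  For an integer `t` let `L = F(θ)` be the extension of
degree `n` of `F` generated by a root `θ` of `f + t` (for a given `f` it exists for all but
`O(X^{1/2} log X)` of the integers `|t| ≤ X`, by Hilbert's irreducibility theorem; in general its Galois
closure has group `S_n`, and for `n > 4` no continuation of `L(E/L, s)` to a point with `Re s < 3/2` is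
known, even for `E` over `ℚ`, `F = ℚ`).  The question is whether `L(E/L, s)` is entire.  As
`L(E/ℚ, s)` is entire, it would follow for `F = ℚ` from the holomorphy of `L(E/L, s) / L(E/ℚ, s)`, the
`L`-function of the twist of `E` by an `(n-1)`-dimensional representation of the Galois group; this
quotient should be entire, and without zeros for `Re s > 1` by the Riemann hypothesis.

In terms of the Euler products this means that the product of the Euler factors of
`L(E/L, s) / L(E/F, s)` over the primes with `y < q ≤ x` tends to `1` for `y → ∞`, `x ≥ y`, like a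
negative power of `y`, for `Re s > 1`, as soon as `y` exceeds a power of `log` of the conductor.
The theorem says that this is true, with a power saving, for `x` up to a power of `X` and for
`Re s ≥ 1 + δ`, `|Im s| ≤ X^c`, for all but at most `X^{1-c}` of the fields with `|t| ≤ X`; and the
same for the twists `L(E ⊗ γ, s)` by systems `γ` of `N` numbers of absolute value at most `1` for the
primes of `F`, base changed to `L` (Artin representations of `F`), for any `X^c` triples `(a, b, γ)` at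
the same time, uniformly in all fields `F` of degree `d` and all `f`.  There is no restriction on the
size of the coefficients of the curves.  Near the edge, for `Re s ≥ 3/2 + A / log X`, the quotient
`L(E/L, s) / L(E/F, s)` itself is given by the Euler factors of the primes `q ≤ (log X)^{1/c}`, up to a
factor arbitrarily close to `1`.

The proof is from the starting modules `Pool.Agent.Y693.RF` (which had been used for the Tauberian Tate
conjecture, problem `MP_4589ac_nt`); this theorem had not been handed in.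
-/

set_option autoImplicit false

namespace Pool.Agent.Results.MP_bf9450_nt.RandomExtensions

open NumberField IsDedekindDomain

/-- `a_v(E) = q_v - #{(x, y) : y² = x³ + a x + b}`, where `x`, `y` are in the residue field of `v`.  It
is the trace of the Frobenius at `v` on `H¹` of `E : y² = x³ + a x + b`, if the reduction is good. -/
noncomputable def trace {K : Type} [Field K] [NumberField K] (a b : 𝓞 K)
    (v : HeightOneSpectrum (𝓞 K)) : ℂ :=
  (Ideal.absNorm v.asIdeal : ℂ) - Nat.card {P : (𝓞 K ⧸ v.asIdeal) × (𝓞 K ⧸ v.asIdeal) //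
    P.2 ^ 2 = P.1 ^ 3 + Ideal.Quotient.mk v.asIdeal a * P.1 + Ideal.Quotient.mk v.asIdeal b}

/-- The prime `v` does not divide `6 (4 a³ + 27 b²)`; then the curve `y² = x³ + a x + b` has good
reduction at `v`. -/
def IsGood {K : Type} [Field K] [NumberField K] (a b : 𝓞 K) (v : HeightOneSpectrum (𝓞 K)) : Prop :=
  6 * (4 * a ^ 3 + 27 * b ^ 2) ∉ v.asIdeal

/-- The Euler factor of `L(E ⊗ γ, s)` at `v`, for `E : y² = x³ + a x + b` and a system `γ` of `N` numbers
`γ_{v,1}, …, γ_{v,N}` for all primes `v`: the product over `j` of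
`(1 - a_v γ_{v,j} q_v^{-s} + γ_{v,j}² q_v^{1-2s})⁻¹`.  For `N = 1` and `γ = 1` it is the Euler factor
`(1 - a_v q_v^{-s} + q_v^{1-2s})⁻¹` of `L(E, s)`. -/
noncomputable def eulerFactor {K : Type} [Field K] [NumberField K] {N : ℕ} (a b : 𝓞 K)
    (γ : HeightOneSpectrum (𝓞 K) → Fin N → ℂ) (s : ℂ) (v : HeightOneSpectrum (𝓞 K)) : ℂ :=
  ∏ j, (1 - trace a b v * γ v j * (Ideal.absNorm v.asIdeal : ℂ) ^ (-s) +
    γ v j ^ 2 * (Ideal.absNorm v.asIdeal : ℂ) ^ (1 - 2 * s))⁻¹

/-- The product of the Euler factors of the good primes `v` with `q_v ≤ x`. -/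
noncomputable def partialProduct {K : Type} [Field K] [NumberField K] {N : ℕ} (a b : 𝓞 K)
    (γ : HeightOneSpectrum (𝓞 K) → Fin N → ℂ) (s : ℂ) (x : ℕ) : ℂ :=
  ∏ᶠ v ∈ {v : HeightOneSpectrum (𝓞 K) | IsGood a b v ∧ Ideal.absNorm v.asIdeal ≤ x},
    eulerFactor a b γ s v

/-- `L(E ⊗ γ, s)`: the product of the Euler factors of all good primes, convergent for
`Re s > 3/2`. -/
noncomputable def LFunction {K : Type} [Field K] [NumberField K] {N : ℕ} (a b : 𝓞 K)
    (γ : HeightOneSpectrum (𝓞 K) → Fin N → ℂ) (s : ℂ) : ℂ :=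
  ∏' v : {v : HeightOneSpectrum (𝓞 K) // IsGood a b v}, eulerFactor a b γ s v

/-- The base change to `L` of a system `γ` of numbers for the primes of `F`: at a prime `w` of `L` above
`v` it is `γ_v ^ f(w|v)`, where `f(w|v)` is the residue degree. -/
noncomputable def baseChange {F : Type} [Field F] [NumberField F] {N : ℕ} (L : Type) [Field L]
    [NumberField L] [Algebra F L] (γ : Ideal (𝓞 F) → Fin N → ℂ)
    (w : HeightOneSpectrum (𝓞 L)) (j : Fin N) : ℂ :=
  γ (w.asIdeal.comap (algebraMap (𝓞 F) (𝓞 L))) j ^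
    Ideal.inertiaDeg' (w.asIdeal.comap (algebraMap (𝓞 F) (𝓞 L))) w.asIdeal

/-- The quotient of the products of the Euler factors of the good primes with norm at most `x` of
`L(E/L ⊗ γ, s)` and of `L(E/F ⊗ γ, s)`, where `E : y² = x³ + a x + b` is a curve over `F`. -/
noncomputable def partialQuotient {F : Type} [Field F] [NumberField F] {N : ℕ} (L : Type) [Field L]
    [NumberField L] [Algebra F L] (a b : 𝓞 F) (γ : Ideal (𝓞 F) → Fin N → ℂ) (s : ℂ) (x : ℕ) : ℂ :=
  partialProduct (algebraMap (𝓞 F) (𝓞 L) a) (algebraMap (𝓞 F) (𝓞 L) b) (baseChange L γ) s x /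
    partialProduct a b (fun v => γ v.asIdeal) s x

/-- The quotient `L(E/L ⊗ γ, s) / L(E/F ⊗ γ, s)`, for `Re s > 3/2`, where `E : y² = x³ + a x + b` is a
curve over `F`. -/
noncomputable def quotient {F : Type} [Field F] [NumberField F] {N : ℕ} (L : Type) [Field L]
    [NumberField L] [Algebra F L] (a b : 𝓞 F) (γ : Ideal (𝓞 F) → Fin N → ℂ) (s : ℂ) : ℂ :=
  LFunction (algebraMap (𝓞 F) (𝓞 L) a) (algebraMap (𝓞 F) (𝓞 L) b) (baseChange L γ) s /
    LFunction a b (fun v => γ v.asIdeal) s

/-- `L = F(θ)` is an extension of `F` of degree `deg f`, and `θ` is a root of `f + t`. -/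
def Generates {F : Type} [Field F] [NumberField F] {L : Type} [Field L] [NumberField L] [Algebra F L]
    (f : Polynomial (𝓞 F)) (t : ℤ) (θ : 𝓞 L) : Prop :=
  Polynomial.aeval θ (f + Polynomial.C (t : 𝓞 F)) = 0 ∧ Module.finrank F L = f.natDegree ∧
    Algebra.adjoin F {(θ : L)} = ⊤

/-- All conjugates of `x` have absolute value at most `R`. -/
def HeightLE {F : Type} [Field F] [NumberField F] (R : ℝ) (x : 𝓞 F) : Prop :=
  ∀ σ : F →+* ℂ, ‖σ (x : F)‖ ≤ R

/-- The Euler products of `L(E/L ⊗ γ, s) / L(E/F ⊗ γ, s)` are stable in the half-plane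
`Re s ≥ 1 + δ`: for `(log X)^{1/c} ≤ y ≤ x ≤ X^c` and `|Im s| ≤ X^c` the contribution of the good primes
of `L` and `F` of norm between `y` and `x` differs from `1` by at most `y^{-c}`. -/
def Stable {F : Type} [Field F] [NumberField F] {N : ℕ} (δ c : ℝ) (X : ℕ) (L : Type) [Field L]
    [NumberField L] [Algebra F L] (a b : 𝓞 F) (γ : Ideal (𝓞 F) → Fin N → ℂ) : Prop :=
  ∀ s : ℂ, 1 + δ ≤ s.re → |s.im| ≤ (X : ℝ) ^ c → ∀ y x : ℕ, (Real.log X) ^ (1 / c) ≤ y → y ≤ x →
    (x : ℝ) ≤ (X : ℝ) ^ c →
      ‖partialQuotient L a b γ s x / partialQuotient L a b γ s y - 1‖ ≤ (y : ℝ) ^ (-c)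

/-- Near the edge, for `Re s ≥ 3/2 + A / log X` and `|Im s| ≤ X^c`, the number
`L(E/L ⊗ γ, s) / L(E/F ⊗ γ, s)` divided by the contribution of the good primes of `L` and `F` of norm at
most `y` differs from `1` by at most `η`, for all `y ≥ (log X)^{1/c}`. -/
def Approximated {F : Type} [Field F] [NumberField F] {N : ℕ} (η A c : ℝ) (X : ℕ) (L : Type)
    [Field L] [NumberField L] [Algebra F L] (a b : 𝓞 F) (γ : Ideal (𝓞 F) → Fin N → ℂ) : Prop :=
  ∀ s : ℂ, 3 / 2 + A / Real.log X ≤ s.re → |s.im| ≤ (X : ℝ) ^ c → ∀ y : ℕ,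
    (Real.log X) ^ (1 / c) ≤ y → ‖quotient L a b γ s / partialQuotient L a b γ s y - 1‖ ≤ η

/-- **Base change of elliptic curves to random number fields.**  Let `d`, `n`, `N` be integers, `n ≥ 1`,
`B` real and `δ > 0`.  There is `c > 0` and for every `η > 0` there are `A` and `X₀`, such that for all
`X ≥ X₀`, all number fields `F` of degree `d` (for example `F = ℚ`, `d = 1`), all monic polynomials `f`
of degree `n` over `𝓞_F` with coefficients of height at most `exp((log X)^B)`, and any `m ≤ X^c`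
triples `(a_k, b_k, γ_k)`, where `a_k, b_k ∈ 𝓞_F` and `γ_k` is a system of `N` numbers of absolute value
at most `1` for all primes of `F`, the following holds for all integers `t` with `|t| ≤ X`, with at most
`X^{1-c}` exceptions.  Let `L = F(θ)` be any extension of `F` of degree `n` with `f(θ) = - t`, and
`E_k` the curve `y² = x³ + a_k x + b_k` over `F`.  Then for all `k` the Euler products of
`L(E_k/L ⊗ γ_k, s) / L(E_k/F ⊗ γ_k, s)`, with the base change of `γ_k` to `L`, are stable in the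
half-plane `Re s ≥ 1 + δ` (`Stable`), and they are close to this quotient for `Re s ≥ 3/2 + A / log X`
(`Approximated`). -/
theorem result (d n N : ℕ) (_ : 0 < n) (B δ : ℝ) (_ : 0 < δ) :
    ∃ c : ℝ, 0 < c ∧ ∀ η : ℝ, 0 < η → ∃ A : ℝ, ∃ X₀ : ℕ, ∀ X : ℕ, X₀ ≤ X →
      ∀ (F : Type) [Field F] [NumberField F], Module.finrank ℚ F = d →
      ∀ f : Polynomial (𝓞 F), f.Monic → f.natDegree = n →
      (∀ i, HeightLE (Real.exp ((Real.log X) ^ B)) (f.coeff i)) →
      ∀ m : ℕ, (m : ℝ) ≤ (X : ℝ) ^ c → ∀ (a b : Fin m → 𝓞 F)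
        (γ : Fin m → Ideal (𝓞 F) → Fin N → ℂ), (∀ k v j, ‖γ k v j‖ ≤ 1) →
        ({t : ℤ | |t| ≤ X ∧ ¬ ∀ (L : Type) [Field L] [NumberField L] [Algebra F L] (θ : 𝓞 L),
          Generates f t θ → ∀ k, Stable δ c X L (a k) (b k) (γ k) ∧
            Approximated η A c X L (a k) (b k) (γ k)}.ncard : ℝ) ≤ (X : ℝ) ^ (1 - c) := by
  rename_i hn hδ
  obtain ⟨c, hc0, h⟩ := Pool.Agent.Y693.RF.thmA d n N hn B δ hδ
  refine ⟨c, hc0, fun η hη => ?_⟩
  obtain ⟨A, X₀, h2⟩ := h η hη
  refine ⟨A, X₀, fun X hX F _ _ hF f hf hfn hcoef m hm a b γ hγ => ?_⟩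
  have h1 := h2 X hX F hF f hf hfn hcoef m hm a b γ hγ
  refine le_trans ?_ h1
  have hfin : {t : ℤ | |t| ≤ X ∧ ¬ ∀ (L : Type) [Field L] [NumberField L] [Algebra F L] (θ : 𝓞 L),
      Pool.Agent.Y693.RF.Gen (f + Polynomial.C (t : 𝓞 F)) θ → ∀ k,
        Pool.Agent.Y693.RF.A1 δ c X (a k) (b k) (γ k) L ∧
        Pool.Agent.Y693.RF.A2 η A c X (a k) (b k) (γ k) L}.Finite := by
    refine Set.Finite.subset (Set.finite_Icc (-(X : ℤ)) X) fun t ht => ?_
    have := abs_le.1 ht.1
    exact ⟨this.1, this.2⟩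
  refine Nat.cast_le.2 (Set.ncard_le_ncard ?_ hfin)
  rintro t ⟨ht1, ht2⟩
  refine ⟨ht1, fun hcon => ht2 ?_⟩
  intro L _ _ _ θ hθ k
  exact hcon L θ ⟨hθ.1, by rw [hθ.2.1, Polynomial.natDegree_add_C], hθ.2.2⟩ k

end Pool.Agent.Results.MP_bf9450_nt.RandomExtensions
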